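import Pool.Agent.Q146.BP.Non

set_option autoImplicit false

/-! Certificates of non-planarity for all colourings that a given permutation turns into their
complement. -/

namespace Pool.Agent.Q146.BP

open Set Pool.Agent.H650R3.T571D

/-- a certificate: nine walks forming a `K₃,₃` (`kind = true`) or ten walks forming a `K₅`, all edges
of colour `side`, under the condition that the colours of the orbit representatives agree with `val`
on the orbits of `mask` -/
structure Cert where
  kind : Bool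
  side : Bool
  mask : ℕ
  val : ℕ
  paths : List (List (Fin 9))

/-- vertices of the `K₃,₃` -/
def X33 (L : List (List (Fin 9))) (a : Fin 6) : Fin 9 :=
  if a.val < 3 then (L.getD (3 * a.val) []).headD 0 else (L.getD (a.val - 3) []).getLastD 0

/-- walks of the `K₃,₃` -/
def P33 (L : List (List (Fin 9))) (a b : Fin 6) : List (Fin 9) :=
  L.getD (3 * a.val + (b.val - 3)) []

/-- vertices of the `K₅` -/
def X5 (L : List (List (Fin 9))) (a : Fin 5) : Fin 9 :=
  if a.val = 0 then (L.getD 0 []).headD 0 else (L.getD (a.val - 1) []).getLastD 0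

/-- walks of the `K₅` -/
def P5 (L : List (List (Fin 9))) (a b : Fin 5) : List (Fin 9) :=
  L.getD (a.val * (7 - a.val) / 2 + b.val - 1) []

def st33 (L : List (List (Fin 9))) : Prop :=
  (∀ a b, E33 a b → (P33 L a b).head? = some (X33 L a) ∧ (P33 L a b).getLast? = some (X33 L b)) ∧
  (∀ a b c d, E33 a b → E33 c d → a ≠ c → b ≠ d → ∀ v ∈ P33 L a b, v ∉ P33 L c d)

def st5 (L : List (List (Fin 9))) : Prop :=
  (∀ a b, a < b → (P5 L a b).head? = some (X5 L a) ∧ (P5 L a b).getLast? = some (X5 L b)) ∧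
  (∀ a b c d, a < b → c < d → a ≠ c → a ≠ d → b ≠ c → b ≠ d → ∀ v ∈ P5 L a b, v ∉ P5 L c d)

instance (L : List (List (Fin 9))) : Decidable (st33 L) := by unfold st33; infer_instance
instance (L : List (List (Fin 9))) : Decidable (st5 L) := by unfold st5; infer_instance

/-- boolean version of `Chn` -/
def chk (R : Fin 9 → Fin 9 → Bool) : List (Fin 9) → Bool
  | [] => true
  | [_] => true
  | a :: b :: l => R a b && chk R (b :: l)

lemma chn_of_chk {R : Fin 9 → Fin 9 → Bool} {E : Fin 9 → Fin 9 → Prop}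
    (h : ∀ a b, R a b = true → E a b) : ∀ l, chk R l = true → Chn E l := by
  intro l
  induction l with
  | nil => intro _; trivial
  | cons a l ih =>
    cases l with
    | nil => intro _; trivial
    | cons b l =>
      intro hl
      simp only [chk, Bool.and_eq_true] at hl
      exact ⟨h a b hl.1, ih hl.2⟩

/-- the edges of a certificate lie on orbits of the mask and have the right colour -/
def edgeOK (T : Fin 9 → Fin 9 → ℕ × ℕ) (C : Cert) (u v : Fin 9) : Bool :=
  (!(u.val == v.val)) && C.mask.testBit (T u v).1 &&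
    ((C.val.testBit (T u v).1) == (((T u v).2 % 2 == 1) ^^ C.side))

/-- the full check of a certificate -/
def Cert.ok (T : Fin 9 → Fin 9 → ℕ × ℕ) (C : Cert) : Bool :=
  (if C.kind then decide (st33 C.paths) else decide (st5 C.paths)) &&
    C.paths.all (fun l => chk (edgeOK T C) l)

/-- colour of the side -/
def sd (s : Bool) : Fin 2 := if s then 1 else 0

theorem no_plane {T : Fin 9 → Fin 9 → ℕ × ℕ} {C : Cert} (hC : C.ok T = true)
    {V : Type} {E : V → V → Prop} {p : V → ℂ} {γ : V → V → ℝ → ℂ} (hP : Plane E p γ)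
    (f : Fin 9 → V) (hf : Function.Injective f)
    (hE : ∀ u v, edgeOK T C u v = true → E (f u) (f v)) : False := by
  have hP' : Plane (fun u v => E (f u) (f v)) (fun u => p (f u)) (fun u v => γ (f u) (f v)) :=
    { inj := fun a b hab => hf (hP.inj hab)
      cont := fun u v h => hP.cont _ _ h
      z0 := fun u v h => hP.z0 _ _ h
      z1 := fun u v h => hP.z1 _ _ h
      avoid := fun u v h t h0 h1 w => hP.avoid _ _ h t h0 h1 _
      nocross := fun u v u' v' h h' h1 h2 h3 h4 => hP.nocross _ _ _ _ h h'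
        (fun hh => h1 (hf hh)) (fun hh => h2 (hf hh)) (fun hh => h3 (hf hh)) (fun hh => h4 (hf hh)) }
  rw [Cert.ok, Bool.and_eq_true] at hC
  obtain ⟨h1, h2⟩ := hC
  have hch : ∀ l ∈ C.paths, Chn (fun u v => E (f u) (f v)) l := by
    intro l hl
    exact chn_of_chk hE l (List.all_eq_true.mp h2 l hl)
  have hch' : ∀ n, Chn (fun u v => E (f u) (f v)) (C.paths.getD n []) := by
    intro n
    by_cases hn : n < C.paths.length
    · rw [List.getD_eq_getElem _ _ hn]
      exact hch _ (List.getElem_mem hn)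
    · rw [List.getD_eq_default _ _ (not_lt.mp hn)]
      trivial
  by_cases hk : C.kind = true
  · rw [if_pos hk, decide_eq_true_eq] at h1
    obtain ⟨h3, h4⟩ := h1
    exact no33 hP' (X33 C.paths) (P33 C.paths) (fun a b _ => hch' _)
      (fun a b h => (h3 a b h).1) (fun a b h => (h3 a b h).2) h4
  · rw [if_neg hk, decide_eq_true_eq] at h1
    obtain ⟨h3, h4⟩ := h1
    exact no5 hP' (X5 C.paths) (P5 C.paths) (fun a b _ => hch' _)
      (fun a b h => (h3 a b h).1) (fun a b h => (h3 a b h).2) h4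

lemma iter_fun {τ : Fin 9 → Fin 9} (hτ : Function.Injective τ) {c : Fin 9 → Fin 9 → Fin 2}
    (h : ∀ u v, u ≠ v → c (τ u) (τ v) = c u v + 1) (k : ℕ) :
    ∀ u v, u ≠ v → (c (τ^[k] u) (τ^[k] v) = c u v + sd (k % 2 == 1)) := by
  have two : ∀ x : Fin 2, x + 1 + 1 = x := by decide
  induction k with
  | zero => intro u v _; simp [sd]
  | succ k ih =>
    intro u v huv
    rw [Function.iterate_succ_apply', Function.iterate_succ_apply', h _ _ (by
      intro he; exact huv (hτ.iterate k he)), ih u v huv]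
    rcases Nat.mod_two_eq_zero_or_one k with hk | hk
    · have hk' : (k + 1) % 2 = 1 := by omega
      rw [hk, hk']; simp [sd]
    · have hk' : (k + 1) % 2 = 0 := by omega
      rw [hk, hk']
      simp only [sd, beq_self_eq_true, if_true, Nat.zero_ne_one, beq_iff_eq, if_false, add_zero]
      exact two _

/-- Every colouring that `τ` turns into its complement has a valid certificate. -/
theorem cover {τ : Fin 9 → Fin 9} (hτ : Function.Injective τ) (n : ℕ)
    (T : Fin 9 → Fin 9 → ℕ × ℕ) (r : ℕ → Fin 9 × Fin 9)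
    (hT : ∀ u v, u ≠ v → (T u v).1 < n ∧ (r (T u v).1).1 ≠ (r (T u v).1).2 ∧
      ((τ^[(T u v).2] (r (T u v).1).1 = u ∧ τ^[(T u v).2] (r (T u v).1).2 = v) ∨
       (τ^[(T u v).2] (r (T u v).1).1 = v ∧ τ^[(T u v).2] (r (T u v).1).2 = u)))
    (certs : List Cert) (hcov : ∀ x < 2 ^ n, ∃ C ∈ certs, x &&& C.mask = C.val)
    (c : Fin 9 → Fin 9 → Fin 2) (hs : ∀ u v, u ≠ v → c u v = c v u)
    (h : ∀ u v, u ≠ v → c (τ u) (τ v) = c u v + 1) :
    ∃ C ∈ certs, ∀ u v, edgeOK T C u v = true → u ≠ v ∧ c u v = sd C.side := by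
  have bit : ∀ y : Fin 2, y = sd (y == 1) := by decide
  obtain ⟨x, hx, hxb⟩ : ∃ x < 2 ^ n, ∀ k < n, x.testBit k = (c (r k).1 (r k).2 == 1) := by
    refine ⟨Nat.ofBits (fun k : Fin n => (c (r k).1 (r k).2 == 1)), Nat.ofBits_lt_two_pow _, ?_⟩
    intro k hk
    exact Nat.testBit_ofBits_lt _ k hk
  obtain ⟨C, hC, hCx⟩ := hcov x hx
  refine ⟨C, hC, fun u v huv => ?_⟩
  simp only [edgeOK, Bool.and_eq_true] at huv
  obtain ⟨⟨h1, h2⟩, h3⟩ := huv
  have hne : u ≠ v := by
    intro he
    rw [he] at h1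
    simp at h1
  refine ⟨hne, ?_⟩
  obtain ⟨hlt, hr, hrr⟩ := hT u v hne
  have hb := hxb _ hlt
  have hb2 : C.val.testBit (T u v).1 = x.testBit (T u v).1 := by
    rw [← hCx, Nat.testBit_land, h2, Bool.and_true]
  have hcr : c (r (T u v).1).1 (r (T u v).1).2 = sd (C.val.testBit (T u v).1) := by
    rw [hb2, hb]; exact bit _
  have hit := iter_fun hτ h (T u v).2 _ _ hr
  rw [hcr] at hit
  have hfin : c u v = sd (C.val.testBit (T u v).1) + sd ((T u v).2 % 2 == 1) := by
    rcases hrr with ⟨e1, e2⟩ | ⟨e1, e2⟩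
    · rw [e1, e2] at hit; exact hit
    · rw [e1, e2] at hit; rw [hs u v hne]; exact hit
  rw [hfin]
  have h3' : C.val.testBit (T u v).1 = (((T u v).2 % 2 == 1) ^^ C.side) := by simpa using h3
  rw [h3']
  have : ∀ a b : Bool, sd (a ^^ b) + sd a = sd b := by decide
  exact this _ _

end Pool.Agent.Q146.BP
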