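import Pool.Agent.Q146.BP.Cover

set_option autoImplicit false

/-! Certificates for the permutation `t44`. -/

namespace Pool.Agent.Q146.BP.D44

/-- the permutation as a plain function -/
def tau (v : Fin 9) : Fin 9 := ([1, 2, 3, 0, 5, 6, 7, 4, 8] : List (Fin 9)).getD v.val 0

/-- orbit number and number of steps from the representative -/
def T (u v : Fin 9) : ℕ × ℕ :=
  (([[(0, 0), (0, 0), (1, 0), (0, 3), (2, 0), (3, 0), (4, 0), (5, 0), (6, 0)], [(0, 0), (0, 0), (0, 1), (1, 1), (5, 1), (2, 1), (3, 1), (4, 1), (6, 1)], [(1, 0), (0, 1), (0, 0), (0, 2), (4, 2), (5, 2), (2, 2), (3, 2), (6, 2)], [(0, 3), (1, 1), (0, 2), (0, 0), (3, 3), (4, 3), (5, 3), (2, 3), (6, 3)], [(2, 0), (5, 1), (4, 2), (3, 3), (0, 0), (7, 0), (8, 0), (7, 3), (9, 0)], [(3, 0), (2, 1), (5, 2), (4, 3), (7, 0), (0, 0), (7,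 1), (8, 1), (9, 1)], [(4, 0), (3, 1), (2, 2), (5, 3), (8, 0), (7, 1), (0, 0), (7, 2), (9, 2)], [(5, 0), (4, 1), (3, 2), (2, 3), (7, 3), (8, 1), (7, 2), (0, 0), (9, 3)], [(6, 0), (6, 1), (6, 2), (6, 3), (9, 0), (9, 1), (9, 2), (9, 3), (0, 0)]] : List (List (ℕ × ℕ))).getD u.val []).getD v.val (0, 0)

/-- orbit representatives -/
def r (k : ℕ) : Fin 9 × Fin 9 :=
  ([(0, 1), (0, 2), (0, 4), (0, 5), (0, 6), (0, 7), (0, 8), (4, 5), (4, 6), (4, 8)] : List (Fin 9 × Fin 9)).getD k (0, 0)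

lemma tau_inj : Function.Injective tau := by decide

lemma T_spec : ∀ u v, u ≠ v → (T u v).1 < 10 ∧ (r (T u v).1).1 ≠ (r (T u v).1).2 ∧
      ((tau^[(T u v).2] (r (T u v).1).1 = u ∧ tau^[(T u v).2] (r (T u v).1).2 = v) ∨
       (tau^[(T u v).2] (r (T u v).1).1 = v ∧ tau^[(T u v).2] (r (T u v).1).2 = u)) := by
  decide +kernel

/-- the certificates -/
def certs : List Cert :=
  [⟨true, true, 935, 420, [[0, 3, 1, 2], [0, 4], [0, 7], [5, 2], [5, 4], [5, 8, 7], [6, 2], [6, 4], [6, 7]]⟩,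
   ⟨true, false, 923, 514, [[0, 1, 3, 2], [0, 5], [0, 6], [4, 2], [4, 5], [4, 6], [7, 2], [7, 8, 5], [7, 6]]⟩,
   ⟨true, true, 934, 678, [[0, 2], [0, 4], [0, 7], [5, 2], [5, 4], [5, 7], [6, 2], [6, 8, 4], [6, 7]]⟩,
   ⟨true, true, 506, 216, [[0, 8, 2], [0, 5], [0, 6], [4, 2], [4, 5], [4, 1, 3, 6], [7, 2], [7, 5], [7, 6]]⟩,
   ⟨true, true, 463, 266, [[0, 2], [0, 3], [0, 5], [1, 2], [1, 8, 3], [1, 5], [7, 2], [7, 3], [7, 4, 6, 5]]⟩,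
   ⟨true, true, 371, 96, [[0, 8, 2], [0, 3], [0, 7], [1, 2], [1, 3], [1, 7], [5, 2], [5, 3], [5, 7]]⟩,
   ⟨true, false, 923, 515, [[0, 3, 1, 2], [0, 5], [0, 6], [4, 2], [4, 5], [4, 6], [7, 2], [7, 8, 5], [7, 6]]⟩,
   ⟨true, false, 475, 457, [[0, 2], [0, 3], [0, 6], [1, 2], [1, 8, 3], [1, 6], [4, 2], [4, 3], [4, 7, 5, 6]]⟩,
   ⟨false, false, 766, 680, [[0, 2], [0, 4], [0, 6], [0, 8], [2, 4], [2, 6], [2, 8], [4, 1, 6], [4, 7, 8], [6, 5, 8]]⟩,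
   ⟨true, true, 946, 562, [[0, 2], [0, 6], [0, 7], [4, 2], [4, 8, 6], [4, 7], [5, 2], [5, 6], [5, 7]]⟩,
   ⟨true, true, 910, 526, [[0, 2], [0, 4], [0, 5], [6, 2], [6, 8, 4], [6, 5], [7, 2], [7, 4], [7, 5]]⟩,
   ⟨false, true, 982, 342, [[0, 2], [0, 4], [0, 6], [0, 8], [2, 4], [2, 6], [2, 8], [4, 6], [4, 7, 8], [6, 5, 8]]⟩,
   ⟨true, true, 734, 210, [[0, 2, 4], [0, 6], [0, 8], [5, 4], [5, 1, 6], [5, 8], [7, 3, 4], [7, 6], [7, 8]]⟩,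
   ⟨true, false, 619, 578, [[0, 1], [0, 5], [0, 7], [2, 3, 1], [2, 5], [2, 7], [8, 1], [8, 5], [8, 7]]⟩,
   ⟨false, true, 883, 98, [[0, 2], [0, 3, 5], [0, 7], [0, 8], [2, 5], [2, 1, 7], [2, 8], [5, 7], [5, 8], [7, 8]]⟩,
   ⟨true, true, 935, 677, [[0, 1, 3, 2], [0, 4], [0, 7], [5, 2], [5, 4], [5, 7], [6, 2], [6, 8, 4], [6, 7]]⟩,
   ⟨true, true, 980, 84, [[0, 4], [0, 6], [0, 8], [2, 4], [2, 6], [2, 8], [5, 7, 4], [5, 6], [5, 8]]⟩,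
   ⟨true, true, 889, 864, [[0, 7, 1], [0, 3], [0, 8], [2, 1], [2, 5, 3], [2, 8], [4, 6, 1], [4, 3], [4, 8]]⟩,
   ⟨true, false, 499, 19, [[0, 8, 2], [0, 3], [0, 7], [1, 2], [1, 3], [1, 7], [5, 2], [5, 3], [5, 4, 6, 7]]⟩,
   ⟨false, true, 986, 218, [[0, 2], [0, 5], [0, 6, 7], [0, 8], [2, 4, 5], [2, 7], [2, 8], [5, 7], [5, 8], [7, 8]]⟩,
   ⟨true, false, 335, 325, [[0, 2], [0, 3], [0, 5], [1, 2], [1, 8, 3], [1, 5], [7, 2], [7, 3], [7, 5]]⟩,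
   ⟨false, true, 974, 846, [[0, 2], [0, 4], [0, 5, 6], [0, 8], [2, 7, 4], [2, 6], [2, 8], [4, 6], [4, 8], [6, 8]]⟩,
   ⟨true, false, 599, 66, [[0, 1], [0, 4], [0, 6], [2, 3, 1], [2, 4], [2, 6], [8, 1], [8, 4], [8, 6]]⟩,
   ⟨true, false, 347, 73, [[0, 2], [0, 3], [0, 6], [1, 2], [1, 8, 3], [1, 6], [4, 2], [4, 3], [4, 6]]⟩,
   ⟨true, true, 947, 305, [[0, 1, 3, 2], [0, 6], [0, 7], [4, 2], [4, 6], [4, 7], [5, 2], [5, 6], [5, 8, 7]]⟩,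
   ⟨true, false, 922, 512, [[0, 2], [0, 5], [0, 6], [4, 2], [4, 5], [4, 6], [7, 2], [7, 8, 5], [7, 6]]⟩,
   ⟨true, false, 922, 256, [[0, 2], [0, 5], [0, 6], [4, 2], [4, 5], [4, 8, 6], [7, 2], [7, 5], [7, 6]]⟩,
   ⟨true, true, 599, 533, [[0, 1], [0, 4], [0, 6], [2, 3, 1], [2, 4], [2, 6], [8, 1], [8, 4], [8, 6]]⟩,
   ⟨true, true, 475, 18, [[0, 2], [0, 3], [0, 6], [1, 2], [1, 8, 3], [1, 6], [4, 2], [4, 3], [4, 7, 5, 6]]⟩,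
   ⟨false, false, 986, 0, [[0, 2], [0, 5, 4], [0, 6], [0, 8], [2, 4], [2, 7, 6], [2, 8], [4, 6], [4, 8], [6, 8]]⟩,
   ⟨true, true, 1000, 1000, [[0, 5], [0, 7], [0, 8], [2, 5], [2, 7], [2, 8], [4, 5], [4, 6, 7], [4, 8]]⟩,
   ⟨true, false, 619, 579, [[0, 3, 1], [0, 5], [0, 7], [2, 1], [2, 5], [2, 7], [8, 1], [8, 5], [8, 7]]⟩,
   ⟨true, true, 946, 306, [[0, 2], [0, 6], [0, 7], [4, 2], [4, 6], [4, 7], [5, 2], [5, 6], [5, 8, 7]]⟩,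
   ⟨true, false, 502, 134, [[0, 8, 2], [0, 6], [0, 7], [4, 2], [4, 6], [4, 7], [5, 2], [5, 6], [5, 1, 3, 7]]⟩,
   ⟨false, false, 766, 552, [[0, 2], [0, 4], [0, 6], [0, 8], [2, 4], [2, 6], [2, 8], [4, 1, 6], [4, 5, 8], [6, 7, 8]]⟩,
   ⟨true, false, 877, 37, [[0, 5, 1], [0, 3], [0, 8], [2, 1], [2, 7, 3], [2, 8], [4, 1], [4, 6, 3], [4, 8]]⟩,
   ⟨false, true, 1002, 618, [[0, 2], [0, 5], [0, 7], [0, 8], [2, 5], [2, 7], [2, 8], [5, 7], [5, 6, 8], [7, 4, 8]]⟩,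
   ⟨false, true, 855, 790, [[0, 2], [0, 4], [0, 6], [0, 3, 8], [2, 4], [2, 6], [2, 1, 8], [4, 6], [4, 8], [6, 8]]⟩,
   ⟨true, true, 371, 34, [[0, 2], [0, 3], [0, 7], [1, 2], [1, 8, 3], [1, 7], [5, 2], [5, 3], [5, 7]]⟩,
   ⟨false, true, 859, 850, [[0, 2], [0, 3, 4], [0, 6], [0, 8], [2, 4], [2, 1, 6], [2, 8], [4, 6], [4, 8], [6, 8]]⟩,
   ⟨true, true, 475, 80, [[0, 8, 2], [0, 3], [0, 6], [1, 2], [1, 3], [1, 6], [4, 2], [4, 3], [4, 7, 5, 6]]⟩,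
   ⟨true, false, 947, 387, [[0, 3, 1, 2], [0, 6], [0, 7], [4, 2], [4, 8, 6], [4, 7], [5, 2], [5, 6], [5, 7]]⟩,
   ⟨true, false, 911, 643, [[0, 3, 1, 2], [0, 4], [0, 5], [6, 2], [6, 4], [6, 5], [7, 2], [7, 4], [7, 8, 5]]⟩,
   ⟨false, true, 893, 829, [[0, 5, 2], [0, 4], [0, 6], [0, 1, 8], [2, 4], [2, 6], [2, 3, 8], [4, 6], [4, 8], [6, 8]]⟩,
   ⟨true, true, 599, 532, [[0, 3, 1], [0, 4], [0, 6], [2, 1], [2, 4], [2, 6], [8, 1], [8, 4], [8, 6]]⟩,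
   ⟨true, false, 487, 291, [[0, 8, 2], [0, 3], [0, 4], [1, 2], [1, 3], [1, 4], [6, 2], [6, 3], [6, 7, 5, 4]]⟩,
   ⟨true, true, 758, 82, [[0, 2, 4], [0, 6], [0, 8], [5, 1, 4], [5, 6], [5, 8], [7, 4], [7, 3, 6], [7, 8]]⟩,
   ⟨true, false, 985, 144, [[0, 5], [0, 1, 7], [0, 8], [2, 3, 5], [2, 7], [2, 8], [4, 6, 5], [4, 7], [4, 8]]⟩,
   ⟨true, false, 463, 69, [[0, 2], [0, 3], [0, 5], [1, 2], [1, 8, 3], [1, 5], [7, 2], [7, 3], [7, 6, 4, 5]]⟩,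
   ⟨true, false, 923, 259, [[0, 3, 1, 2], [0, 5], [0, 6], [4, 2], [4, 5], [4, 8, 6], [7, 2], [7, 5], [7, 6]]⟩,
   ⟨true, false, 499, 147, [[0, 8, 2], [0, 3], [0, 7], [1, 2], [1, 3], [1, 7], [5, 2], [5, 3], [5, 6, 4, 7]]⟩,
   ⟨true, true, 922, 666, [[0, 2], [0, 5], [0, 6], [4, 2], [4, 5], [4, 8, 6], [7, 2], [7, 5], [7, 6]]⟩,
   ⟨false, false, 893, 833, [[0, 4, 2], [0, 5], [0, 7], [0, 3, 8], [2, 5], [2, 7], [2, 1, 8], [5, 7], [5, 8], [7, 8]]⟩,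
   ⟨true, false, 463, 197, [[0, 2], [0, 3], [0, 5], [1, 2], [1, 8, 3], [1, 5], [7, 2], [7, 3], [7, 4, 6, 5]]⟩,
   ⟨false, true, 1010, 114, [[0, 2], [0, 6, 5], [0, 7], [0, 8], [2, 5], [2, 4, 7], [2, 8], [5, 7], [5, 8], [7, 8]]⟩,
   ⟨false, false, 871, 772, [[0, 2], [0, 1, 5], [0, 7], [0, 8], [2, 5], [2, 3, 7], [2, 8], [5, 7], [5, 8], [7, 8]]⟩,
   ⟨true, true, 463, 328, [[0, 8, 2], [0, 3], [0, 5], [1, 2], [1, 3], [1, 5], [7, 2], [7, 3], [7, 4, 6, 5]]⟩,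
   ⟨true, true, 478, 332, [[0, 8, 2], [0, 4], [0, 5], [6, 2], [6, 4], [6, 5], [7, 2], [7, 4], [7, 1, 3, 5]]⟩,
   ⟨false, false, 998, 768, [[0, 2], [0, 4, 5], [0, 7], [0, 8], [2, 5], [2, 6, 7], [2, 8], [5, 7], [5, 8], [7, 8]]⟩,
   ⟨true, false, 475, 329, [[0, 2], [0, 3], [0, 6], [1, 2], [1, 8, 3], [1, 6], [4, 2], [4, 3], [4, 5, 7, 6]]⟩,
   ⟨false, true, 986, 986, [[0, 2], [0, 5, 4], [0, 6], [0, 8], [2, 4], [2, 7, 6], [2, 8], [4, 6], [4, 8], [6, 8]]⟩,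
   ⟨true, true, 463, 394, [[0, 2], [0, 3], [0, 5], [1, 2], [1, 8, 3], [1, 5], [7, 2], [7, 3], [7, 6, 4, 5]]⟩,
   ⟨false, false, 766, 20, [[0, 2], [0, 5], [0, 7], [0, 8], [2, 5], [2, 7], [2, 8], [5, 1, 7], [5, 4, 8], [7, 6, 8]]⟩,
   ⟨true, true, 923, 409, [[0, 1, 3, 2], [0, 5], [0, 6], [4, 2], [4, 5], [4, 6], [7, 2], [7, 8, 5], [7, 6]]⟩,
   ⟨true, true, 910, 270, [[0, 2], [0, 4], [0, 5], [6, 2], [6, 4], [6, 5], [7, 2], [7, 4], [7, 8, 5]]⟩,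
   ⟨true, false, 910, 640, [[0, 2], [0, 4], [0, 5], [6, 2], [6, 4], [6, 5], [7, 2], [7, 4], [7, 8, 5]]⟩,
   ⟨false, true, 766, 214, [[0, 2], [0, 4], [0, 6], [0, 8], [2, 4], [2, 6], [2, 8], [4, 1, 6], [4, 5, 8], [6, 7, 8]]⟩,
   ⟨true, false, 877, 12, [[0, 1], [0, 7, 3], [0, 8], [2, 5, 1], [2, 3], [2, 8], [4, 6, 1], [4, 3], [4, 8]]⟩,
   ⟨true, true, 475, 208, [[0, 8, 2], [0, 3], [0, 6], [1, 2], [1, 3], [1, 6], [4, 2], [4, 3], [4, 5, 7, 6]]⟩,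
   ⟨false, false, 893, 64, [[0, 5, 2], [0, 4], [0, 6], [0, 1, 8], [2, 4], [2, 6], [2, 3, 8], [4, 6], [4, 8], [6, 8]]⟩,
   ⟨true, true, 877, 865, [[0, 1], [0, 7, 3], [0, 8], [2, 5, 1], [2, 3], [2, 8], [4, 6, 1], [4, 3], [4, 8]]⟩,
   ⟨false, false, 855, 65, [[0, 2], [0, 4], [0, 6], [0, 3, 8], [2, 4], [2, 6], [2, 1, 8], [4, 6], [4, 8], [6, 8]]⟩,
   ⟨true, true, 885, 68, [[0, 4, 1], [0, 3], [0, 8], [2, 1], [2, 6, 3], [2, 8], [5, 7, 1], [5, 3], [5, 8]]⟩,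
   ⟨false, true, 1002, 746, [[0, 2], [0, 5], [0, 7], [0, 8], [2, 5], [2, 7], [2, 8], [5, 7], [5, 4, 8], [7, 6, 8]]⟩,
   ⟨true, false, 599, 67, [[0, 3, 1], [0, 4], [0, 6], [2, 1], [2, 4], [2, 6], [8, 1], [8, 4], [8, 6]]⟩,
   ⟨true, true, 762, 714, [[0, 5], [0, 2, 7], [0, 8], [4, 5], [4, 1, 7], [4, 8], [6, 3, 5], [6, 7], [6, 8]]⟩,
   ⟨false, false, 998, 0, [[0, 2], [0, 4], [0, 7, 6], [0, 8], [2, 5, 4], [2, 6], [2, 8], [4, 6], [4, 8], [6, 8]]⟩,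
   ⟨true, true, 934, 422, [[0, 2], [0, 4], [0, 7], [5, 2], [5, 4], [5, 8, 7], [6, 2], [6, 4], [6, 7]]⟩,
   ⟨true, false, 762, 152, [[0, 2, 5], [0, 7], [0, 8], [4, 3, 5], [4, 7], [4, 8], [6, 5], [6, 1, 7], [6, 8]]⟩,
   ⟨true, false, 885, 804, [[0, 1], [0, 6, 3], [0, 8], [2, 4, 1], [2, 3], [2, 8], [5, 1], [5, 7, 3], [5, 8]]⟩,
   ⟨true, false, 1000, 128, [[0, 5], [0, 7], [0, 8], [2, 5], [2, 7], [2, 8], [4, 6, 5], [4, 7], [4, 8]]⟩,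
   ⟨true, false, 494, 418, [[0, 8, 2], [0, 4], [0, 5], [6, 2], [6, 3, 1, 4], [6, 5], [7, 2], [7, 4], [7, 5]]⟩,
   ⟨true, false, 335, 263, [[0, 8, 2], [0, 3], [0, 5], [1, 2], [1, 3], [1, 5], [7, 2], [7, 3], [7, 5]]⟩,
   ⟨true, true, 947, 304, [[0, 3, 1, 2], [0, 6], [0, 7], [4, 2], [4, 6], [4, 7], [5, 2], [5, 6], [5, 8, 7]]⟩,
   ⟨true, false, 946, 384, [[0, 2], [0, 6], [0, 7], [4, 2], [4, 8, 6], [4, 7], [5, 2], [5, 6], [5, 7]]⟩,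
   ⟨true, true, 463, 456, [[0, 8, 2], [0, 3], [0, 5], [1, 2], [1, 3], [1, 5], [7, 2], [7, 3], [7, 6, 4, 5]]⟩,
   ⟨true, false, 359, 97, [[0, 2], [0, 3], [0, 4], [1, 2], [1, 8, 3], [1, 4], [6, 2], [6, 3], [6, 4]]⟩,
   ⟨true, true, 335, 72, [[0, 8, 2], [0, 3], [0, 5], [1, 2], [1, 3], [1, 5], [7, 2], [7, 3], [7, 5]]⟩,
   ⟨true, false, 1000, 0, [[0, 5], [0, 7], [0, 8], [2, 5], [2, 7], [2, 8], [4, 5], [4, 6, 7], [4, 8]]⟩,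
   ⟨false, true, 893, 61, [[0, 4, 2], [0, 5], [0, 7], [0, 1, 8], [2, 5], [2, 7], [2, 3, 8], [5, 7], [5, 8], [7, 8]]⟩,
   ⟨true, true, 980, 212, [[0, 4], [0, 6], [0, 8], [2, 4], [2, 6], [2, 8], [5, 4], [5, 7, 6], [5, 8]]⟩,
   ⟨true, false, 934, 512, [[0, 2], [0, 4], [0, 7], [5, 2], [5, 4], [5, 8, 7], [6, 2], [6, 4], [6, 7]]⟩,
   ⟨true, false, 923, 258, [[0, 1, 3, 2], [0, 5], [0, 6], [4, 2], [4, 5], [4, 8, 6], [7, 2], [7, 5], [7, 6]]⟩,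
   ⟨true, true, 911, 525, [[0, 1, 3, 2], [0, 4], [0, 5], [6, 2], [6, 8, 4], [6, 5], [7, 2], [7, 4], [7, 5]]⟩,
   ⟨true, false, 494, 266, [[0, 8, 2], [0, 4], [0, 7], [5, 2], [5, 4], [5, 7], [6, 2], [6, 1, 3, 4], [6, 7]]⟩,
   ⟨true, false, 934, 256, [[0, 2], [0, 4], [0, 7], [5, 2], [5, 4], [5, 7], [6, 2], [6, 8, 4], [6, 7]]⟩,
   ⟨true, false, 980, 896, [[0, 4], [0, 6], [0, 8], [2, 4], [2, 6], [2, 8], [5, 7, 4], [5, 6], [5, 8]]⟩,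
   ⟨true, false, 911, 642, [[0, 1, 3, 2], [0, 4], [0, 5], [6, 2], [6, 4], [6, 5], [7, 2], [7, 4], [7, 8, 5]]⟩,
   ⟨true, true, 359, 324, [[0, 8, 2], [0, 3], [0, 4], [1, 2], [1, 3], [1, 4], [6, 2], [6, 3], [6, 4]]⟩,
   ⟨true, true, 335, 10, [[0, 2], [0, 3], [0, 5], [1, 2], [1, 8, 3], [1, 5], [7, 2], [7, 3], [7, 5]]⟩,
   ⟨false, false, 847, 773, [[0, 2], [0, 5], [0, 3, 7], [0, 8], [2, 1, 5], [2, 7], [2, 8], [5, 7], [5, 8], [7, 8]]⟩,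
   ⟨true, true, 619, 40, [[0, 3, 1], [0, 5], [0, 7], [2, 1], [2, 5], [2, 7], [8, 1], [8, 5], [8, 7]]⟩,
   ⟨true, true, 922, 410, [[0, 2], [0, 5], [0, 6], [4, 2], [4, 5], [4, 6], [7, 2], [7, 8, 5], [7, 6]]⟩,
   ⟨true, false, 475, 395, [[0, 8, 2], [0, 3], [0, 6], [1, 2], [1, 3], [1, 6], [4, 2], [4, 3], [4, 7, 5, 6]]⟩,
   ⟨true, true, 347, 336, [[0, 8, 2], [0, 3], [0, 6], [1, 2], [1, 3], [1, 6], [4, 2], [4, 3], [4, 6]]⟩,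
   ⟨false, false, 974, 896, [[0, 2], [0, 5], [0, 4, 7], [0, 8], [2, 6, 5], [2, 7], [2, 8], [5, 7], [5, 8], [7, 8]]⟩,
   ⟨true, true, 619, 41, [[0, 1], [0, 5], [0, 7], [2, 3, 1], [2, 5], [2, 7], [8, 1], [8, 5], [8, 7]]⟩,
   ⟨true, true, 892, 824, [[0, 6, 4], [0, 5], [0, 7], [2, 4], [2, 5], [2, 7], [8, 4], [8, 1, 5], [8, 3, 7]]⟩,
   ⟨true, true, 935, 676, [[0, 3, 1, 2], [0, 4], [0, 7], [5, 2], [5, 4], [5, 7], [6, 2], [6, 8, 4], [6, 7]]⟩,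
   ⟨false, false, 1010, 128, [[0, 2], [0, 7, 4], [0, 6], [0, 8], [2, 4], [2, 5, 6], [2, 8], [4, 6], [4, 8], [6, 8]]⟩,
   ⟨true, false, 910, 384, [[0, 2], [0, 4], [0, 5], [6, 2], [6, 8, 4], [6, 5], [7, 2], [7, 4], [7, 5]]⟩,
   ⟨true, true, 347, 274, [[0, 2], [0, 3], [0, 6], [1, 2], [1, 8, 3], [1, 6], [4, 2], [4, 3], [4, 6]]⟩,
   ⟨true, false, 371, 275, [[0, 8, 2], [0, 3], [0, 7], [1, 2], [1, 3], [1, 7], [5, 2], [5, 3], [5, 7]]⟩,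
   ⟨true, false, 946, 640, [[0, 2], [0, 6], [0, 7], [4, 2], [4, 6], [4, 7], [5, 2], [5, 6], [5, 8, 7]]⟩,
   ⟨false, false, 854, 0, [[0, 2], [0, 4], [0, 6], [0, 8], [2, 4], [2, 6], [2, 8], [4, 6], [4, 8], [6, 8]]⟩,
   ⟨true, false, 750, 164, [[0, 5], [0, 2, 7], [0, 8], [4, 1, 5], [4, 7], [4, 8], [6, 5], [6, 3, 7], [6, 8]]⟩,
   ⟨false, true, 859, 75, [[0, 2], [0, 5], [0, 1, 7], [0, 8], [2, 3, 5], [2, 7], [2, 8], [5, 7], [5, 8], [7, 8]]⟩,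
   ⟨false, false, 871, 33, [[0, 2], [0, 4], [0, 3, 6], [0, 8], [2, 1, 4], [2, 6], [2, 8], [4, 6], [4, 8], [6, 8]]⟩,
   ⟨true, false, 347, 11, [[0, 8, 2], [0, 3], [0, 6], [1, 2], [1, 3], [1, 6], [4, 2], [4, 3], [4, 6]]⟩,
   ⟨true, true, 911, 524, [[0, 3, 1, 2], [0, 4], [0, 5], [6, 2], [6, 8, 4], [6, 5], [7, 2], [7, 4], [7, 5]]⟩,
   ⟨true, true, 750, 586, [[0, 5], [0, 2, 7], [0, 8], [4, 1, 5], [4, 7], [4, 8], [6, 5], [6, 3, 7], [6, 8]]⟩,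
   ⟨true, true, 885, 81, [[0, 1], [0, 6, 3], [0, 8], [2, 4, 1], [2, 3], [2, 8], [5, 1], [5, 7, 3], [5, 8]]⟩,
   ⟨true, false, 734, 664, [[0, 4], [0, 2, 6], [0, 8], [5, 3, 4], [5, 6], [5, 8], [7, 4], [7, 1, 6], [7, 8]]⟩,
   ⟨true, false, 359, 35, [[0, 8, 2], [0, 3], [0, 4], [1, 2], [1, 3], [1, 4], [6, 2], [6, 3], [6, 4]]⟩,
   ⟨true, true, 861, 69, [[0, 1], [0, 4, 3], [0, 8], [2, 6, 1], [2, 3], [2, 8], [5, 7, 1], [5, 3], [5, 8]]⟩,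
   ⟨false, false, 893, 832, [[0, 4, 2], [0, 5], [0, 7], [0, 1, 8], [2, 5], [2, 7], [2, 3, 8], [5, 7], [5, 8], [7, 8]]⟩,
   ⟨false, true, 893, 60, [[0, 4, 2], [0, 5], [0, 7], [0, 3, 8], [2, 5], [2, 7], [2, 1, 8], [5, 7], [5, 8], [7, 8]]⟩,
   ⟨true, false, 750, 12, [[0, 2, 5], [0, 7], [0, 8], [4, 5], [4, 3, 7], [4, 8], [6, 1, 5], [6, 7], [6, 8]]⟩,
   ⟨false, true, 847, 839, [[0, 2], [0, 4], [0, 1, 6], [0, 8], [2, 3, 4], [2, 6], [2, 8], [4, 6], [4, 8], [6, 8]]⟩,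
   ⟨true, false, 371, 337, [[0, 2], [0, 3], [0, 7], [1, 2], [1, 8, 3], [1, 7], [5, 2], [5, 3], [5, 7]]⟩,
   ⟨true, true, 359, 262, [[0, 2], [0, 3], [0, 4], [1, 2], [1, 8, 3], [1, 4], [6, 2], [6, 3], [6, 4]]⟩,
   ⟨true, false, 762, 48, [[0, 5], [0, 2, 7], [0, 8], [4, 5], [4, 1, 7], [4, 8], [6, 3, 5], [6, 7], [6, 8]]⟩,
   ⟨true, true, 1000, 872, [[0, 5], [0, 7], [0, 8], [2, 5], [2, 7], [2, 8], [4, 6, 5], [4, 7], [4, 8]]⟩,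
   ⟨true, false, 947, 386, [[0, 1, 3, 2], [0, 6], [0, 7], [4, 2], [4, 8, 6], [4, 7], [5, 2], [5, 6], [5, 7]]⟩,
   ⟨true, false, 758, 560, [[0, 4], [0, 2, 6], [0, 8], [5, 4], [5, 3, 6], [5, 8], [7, 1, 4], [7, 6], [7, 8]]⟩,
   ⟨true, true, 487, 134, [[0, 2], [0, 3], [0, 4], [1, 2], [1, 8, 3], [1, 4], [6, 2], [6, 3], [6, 7, 5, 4]]⟩,
   ⟨true, false, 980, 768, [[0, 4], [0, 6], [0, 8], [2, 4], [2, 6], [2, 8], [5, 4], [5, 7, 6], [5, 8]]⟩,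
   ⟨true, false, 861, 781, [[0, 6, 1], [0, 3], [0, 8], [2, 1], [2, 4, 3], [2, 8], [5, 1], [5, 7, 3], [5, 8]]⟩,
   ⟨false, false, 1002, 384, [[0, 2], [0, 5], [0, 7], [0, 8], [2, 5], [2, 7], [2, 8], [5, 7], [5, 6, 8], [7, 4, 8]]⟩]

lemma certs_ok : ∀ C ∈ certs, C.ok T = true := by
  decide +kernel

lemma certs_cover : ∀ x < 2 ^ 10, ∃ C ∈ certs, x &&& C.mask = C.val := by
  decide +kernel

end Pool.Agent.Q146.BP.D44
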