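import Pool.Agent.Q146.BP.Cover

set_option autoImplicit false

/-! Certificates for the permutation `t8`. -/

namespace Pool.Agent.Q146.BP.D8

/-- the permutation as a plain function -/
def tau (v : Fin 9) : Fin 9 := ([1, 2, 3, 4, 5, 6, 7, 0, 8] : List (Fin 9)).getD v.val 0

/-- orbit number and number of steps from the representative -/
def T (u v : Fin 9) : ℕ × ℕ :=
  (([[(0, 0), (0, 0), (1, 0), (2, 0), (3, 0), (2, 5), (1, 6), (0, 7), (4, 0)], [(0, 0), (0, 0), (0, 1), (1, 1), (2, 1), (3, 1), (2, 6), (1, 7), (4, 1)], [(1, 0), (0, 1), (0, 0), (0, 2), (1, 2), (2, 2), (3, 2), (2, 7), (4, 2)], [(2, 0), (1, 1), (0, 2), (0, 0), (0, 3), (1, 3), (2, 3), (3, 3), (4, 3)], [(3, 0), (2, 1), (1, 2), (0, 3), (0, 0), (0, 4), (1, 4), (2, 4), (4, 4)], [(2, 5), (3, 1), (2, 2), (1, 3), (0, 4), (0, 0), (0, 5), (1, 5), (4, 5)], [(1, 6), (2, 6),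 (3, 2), (2, 3), (1, 4), (0, 5), (0, 0), (0, 6), (4, 6)], [(0, 7), (1, 7), (2, 7), (3, 3), (2, 4), (1, 5), (0, 6), (0, 0), (4, 7)], [(4, 0), (4, 1), (4, 2), (4, 3), (4, 4), (4, 5), (4, 6), (4, 7), (0, 0)]] : List (List (ℕ × ℕ))).getD u.val []).getD v.val (0, 0)

/-- orbit representatives -/
def r (k : ℕ) : Fin 9 × Fin 9 :=
  ([(0, 1), (0, 2), (0, 3), (0, 4), (0, 8)] : List (Fin 9 × Fin 9)).getD k (0, 0)

lemma tau_inj : Function.Injective tau := by decide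

lemma T_spec : ∀ u v, u ≠ v → (T u v).1 < 5 ∧ (r (T u v).1).1 ≠ (r (T u v).1).2 ∧
      ((tau^[(T u v).2] (r (T u v).1).1 = u ∧ tau^[(T u v).2] (r (T u v).1).2 = v) ∨
       (tau^[(T u v).2] (r (T u v).1).1 = v ∧ tau^[(T u v).2] (r (T u v).1).2 = u)) := by
  decide +kernel

/-- the certificates -/
def certs : List Cert :=
  [⟨true, false, 29, 13, [[0, 5, 1], [0, 7], [0, 8], [2, 1], [2, 7], [2, 8], [4, 1], [4, 3, 7], [4, 8]]⟩,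
   ⟨false, false, 26, 0, [[0, 2], [0, 4], [0, 6], [0, 8], [2, 4], [2, 6], [2, 8], [4, 6], [4, 8], [6, 8]]⟩,
   ⟨true, true, 29, 21, [[0, 3], [0, 1, 5], [0, 8], [2, 3], [2, 5], [2, 8], [4, 7, 3], [4, 5], [4, 8]]⟩,
   ⟨true, true, 30, 6, [[0, 2], [0, 3], [0, 6], [1, 5, 2], [1, 8, 3], [1, 6], [4, 2], [4, 7, 3], [4, 6]]⟩,
   ⟨false, true, 23, 19, [[0, 2], [0, 1, 4], [0, 6], [0, 8], [2, 4], [2, 3, 6], [2, 8], [4, 6], [4, 8], [6, 8]]⟩,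
   ⟨false, true, 26, 26, [[0, 2], [0, 4], [0, 6], [0, 8], [2, 4], [2, 6], [2, 8], [4, 6], [4, 8], [6, 8]]⟩,
   ⟨false, false, 23, 1, [[0, 2], [0, 3, 4], [0, 6], [0, 8], [2, 4], [2, 1, 6], [2, 8], [4, 6], [4, 8], [6, 8]]⟩,
   ⟨true, false, 30, 2, [[0, 8, 2], [0, 3], [0, 4, 7], [1, 6, 2], [1, 3], [1, 7], [5, 2], [5, 3], [5, 7]]⟩,
   ⟨true, true, 23, 6, [[0, 2], [0, 3], [0, 6], [1, 2], [1, 8, 3], [1, 6], [4, 2], [4, 3], [4, 6]]⟩,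
   ⟨true, true, 30, 28, [[0, 8, 2], [0, 3], [0, 4, 7], [1, 6, 2], [1, 3], [1, 7], [5, 2], [5, 3], [5, 7]]⟩,
   ⟨true, false, 29, 8, [[0, 3], [0, 1, 5], [0, 8], [2, 3], [2, 5], [2, 8], [4, 7, 3], [4, 5], [4, 8]]⟩,
   ⟨true, false, 23, 17, [[0, 2], [0, 3], [0, 6], [1, 2], [1, 8, 3], [1, 6], [4, 2], [4, 3], [4, 6]]⟩,
   ⟨true, false, 30, 24, [[0, 2], [0, 3], [0, 6], [1, 5, 2], [1, 8, 3], [1, 6], [4, 2], [4, 7, 3], [4, 6]]⟩,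
   ⟨true, true, 23, 20, [[0, 3], [0, 7], [0, 8], [1, 3], [1, 7], [1, 2, 8], [4, 3], [4, 7], [4, 8]]⟩,
   ⟨true, false, 23, 3, [[0, 3], [0, 7], [0, 8], [1, 3], [1, 7], [1, 2, 8], [4, 3], [4, 7], [4, 8]]⟩,
   ⟨false, true, 23, 22, [[0, 2], [0, 3, 4], [0, 6], [0, 8], [2, 4], [2, 1, 6], [2, 8], [4, 6], [4, 8], [6, 8]]⟩,
   ⟨false, false, 23, 4, [[0, 2], [0, 1, 4], [0, 6], [0, 8], [2, 4], [2, 3, 6], [2, 8], [4, 6], [4, 8], [6, 8]]⟩,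
   ⟨true, true, 29, 16, [[0, 5, 1], [0, 7], [0, 8], [2, 1], [2, 7], [2, 8], [4, 1], [4, 3, 7], [4, 8]]⟩]

lemma certs_ok : ∀ C ∈ certs, C.ok T = true := by
  decide +kernel

lemma certs_cover : ∀ x < 2 ^ 5, ∃ C ∈ certs, x &&& C.mask = C.val := by
  decide +kernel

end Pool.Agent.Q146.BP.D8
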