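import Pool.Agent.Helper770.Straight

set_option autoImplicit false

/-! A drawing of `K₉` on two planes with exactly one crossing. -/

namespace Pool.Agent.Q146.BP

open Pool.Agent.Helper770.Straight

/-- the conditions on a drawing of `K₉` on two planes -/
structure Valid (c : Fin 9 → Fin 9 → Fin 2) (p : Fin 2 → Fin 9 → ℂ)
    (γ : Fin 2 → Fin 9 → Fin 9 → ℝ → ℂ) : Prop where
  sym : ∀ u v : Fin 9, (⊤ : SimpleGraph (Fin 9)).Adj u v → c u v = c v u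
  inj : ∀ i : Fin 2, Function.Injective (p i)
  arcs : ∀ i : Fin 2, ∀ u v : Fin 9, (⊤ : SimpleGraph (Fin 9)).Adj u v → c u v = i →
    ContinuousOn (γ i u v) (Set.Icc (0:ℝ) 1) ∧
    Set.InjOn (γ i u v) (Set.Icc (0:ℝ) 1) ∧
    γ i u v 0 = p i u ∧ γ i u v 1 = p i v ∧
    (∀ t : ℝ, 0 ≤ t → t ≤ 1 → γ i v u t = γ i u v (1 - t)) ∧
    ∀ t : ℝ, 0 < t → t < 1 → ∀ w : Fin 9, γ i u v t ≠ p i w

/-- the crossings of a drawing -/
def XS (c : Fin 9 → Fin 9 → Fin 2) (γ : Fin 2 → Fin 9 → Fin 9 → ℝ → ℂ) :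
    Set (Fin 2 × Fin 9 × Fin 9 × Fin 9 × Fin 9 × ℂ) :=
  {x : Fin 2 × Fin 9 × Fin 9 × Fin 9 × Fin 9 × ℂ |
    (⊤ : SimpleGraph (Fin 9)).Adj x.2.1 x.2.2.1 ∧
    (⊤ : SimpleGraph (Fin 9)).Adj x.2.2.2.1 x.2.2.2.2.1 ∧
    c x.2.1 x.2.2.1 = x.1 ∧ c x.2.2.2.1 x.2.2.2.2.1 = x.1 ∧
    ¬ (x.2.1 = x.2.2.2.1 ∧ x.2.2.1 = x.2.2.2.2.1) ∧
    ¬ (x.2.1 = x.2.2.2.2.1 ∧ x.2.2.1 = x.2.2.2.1) ∧
    (∃ t : ℝ, 0 < t ∧ t < 1 ∧ γ x.1 x.2.1 x.2.2.1 t = x.2.2.2.2.2) ∧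
    (∃ t : ℝ, 0 < t ∧ t < 1 ∧ γ x.1 x.2.2.2.1 x.2.2.2.2.1 t = x.2.2.2.2.2)}

/-- integer coordinates of the vertices in the two planes -/
def pts (i : Fin 2) (v : Fin 9) : ℤ × ℤ :=
  (([[(2, 4), (0, 7), (7, 7), (6, 6), (3, 0), (6, 2), (0, 1), (1, 5), (7, 2)], [(4, 3), (3, 1), (6, 3), (7, 5), (7, 0), (2, 4), (4, 4), (1, 0), (2, 7)]] :
    List (List (ℤ × ℤ))).getD i.val []).getD v.val (0, 0)

/-- colours of the edges -/
def cz (u v : Fin 9) : Fin 2 :=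
  (([[0, 1, 1, 0, 1, 0, 1, 0, 1], [1, 0, 0, 0, 1, 1, 0, 0, 1], [1, 0, 0, 0, 1, 0, 1, 0, 0], [0, 0, 0, 0, 1, 0, 1, 0, 1], [1, 1, 1, 1, 0, 0, 0, 1, 0], [0, 1, 0, 0, 0, 0, 0, 1, 1], [1, 0, 1, 1, 0, 0, 0, 0, 1], [0, 0, 0, 0, 1, 1, 0, 0, 1], [1, 1, 0, 1, 0, 1, 1, 1, 0]] :
    List (List (Fin 2))).getD u.val []).getD v.val 0

/-- the eight tuples of the only crossing -/
def LX : Finset (Fin 2 × Fin 9 × Fin 9 × Fin 9 × Fin 9) :=
  {(0, 1, 3, 2, 7), (0, 1, 3, 7, 2), (0, 3, 1, 2, 7), (0, 3, 1, 7, 2), (0, 2, 7, 1, 3), (0, 2, 7, 3, 1), (0, 7, 2, 1, 3), (0, 7, 2, 3, 1)}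

/-- integer orientation -/
def oz (i : Fin 2) (u v w : Fin 9) : ℤ :=
  ((pts i v).1 - (pts i u).1) * ((pts i w).2 - (pts i u).2) -
    ((pts i v).2 - (pts i u).2) * ((pts i w).1 - (pts i u).1)

/-- the possible signs at a crossing -/
def opp (a b : ℤ) : Bool := (decide (a < 0) && decide (0 < b)) || (decide (0 < a) && decide (b < 0)) ||
  (decide (a = 0) && decide (b = 0))

lemma oz_ne : ∀ i u v w, u ≠ v → w ≠ u → w ≠ v → oz i u v w ≠ 0 := by decide +kernel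

lemma cz_symm : ∀ u v, cz u v = cz v u := by decide +kernel

lemma pts_inj : ∀ i u v, pts i u = pts i v → u = v := by decide +kernel

lemma cross_mem0 : ∀ u v, u ≠ v → ∀ u' v', u' ≠ v' → cz u' v' = cz u v →
    ¬ (u = u' ∧ v = v') → ¬ (u = v' ∧ v = u') →
    opp (oz (cz u v) u v u') (oz (cz u v) u v v') = true →
    opp (oz (cz u v) u' v' u) (oz (cz u v) u' v' v) = true →
    (cz u v, u, v, u', v') ∈ LX ∧ oz (cz u v) u' v' u ≠ oz (cz u v) u' v' v := by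
  decide +kernel

lemma cross_mem (i : Fin 2) (u v u' v' : Fin 9) (h1 : u ≠ v) (h2 : u' ≠ v') (h3 : cz u v = i)
    (h4 : cz u' v' = i) (h5 : ¬ (u = u' ∧ v = v')) (h6 : ¬ (u = v' ∧ v = u'))
    (h7 : opp (oz i u v u') (oz i u v v') = true) (h8 : opp (oz i u' v' u) (oz i u' v' v) = true) :
    (i, u, v, u', v') ∈ LX ∧ oz i u' v' u ≠ oz i u' v' v := by
  subst h3
  exact cross_mem0 u v h1 u' v' h2 h4 h5 h6 h7 h8

/-- positions -/
noncomputable def pz (i : Fin 2) (v : Fin 9) : ℂ := ⟨((pts i v).1 : ℝ), ((pts i v).2 : ℝ)⟩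

/-- straight arcs -/
noncomputable def gz (i : Fin 2) (u v : Fin 9) (t : ℝ) : ℂ := seg (pz i u) (pz i v) t

lemma ori_pz (i : Fin 2) (u v w : Fin 9) : ori (pz i u) (pz i v) (pz i w) = (oz i u v w : ℝ) := by
  simp only [ori, pz, oz]
  push_cast
  ring

lemma pz_inj (i : Fin 2) : Function.Injective (pz i) := by
  intro u v h
  have h1 := congrArg Complex.re h
  have h2 := congrArg Complex.im h
  simp only [pz, Int.cast_inj] at h1 h2
  exact pts_inj i u v (Prod.ext h1 h2)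

theorem valid_z : Valid cz pz gz := by
  refine ⟨fun u v _ => cz_symm u v, pz_inj, fun i u v huv _ => ?_⟩
  have hne : u ≠ v := huv
  refine ⟨(seg_cont _ _).continuousOn, fun s _ t _ hst => seg_inj (fun h => hne (pz_inj i h)) hst,
    seg_zero _ _, seg_one _ _, fun t _ _ => seg_comm _ _ _, ?_⟩
  intro t ht0 ht1 w hw
  have hne' : pz i u ≠ pz i v := fun h => hne (pz_inj i h)
  by_cases h1 : w = u
  · have : seg (pz i u) (pz i v) t = seg (pz i u) (pz i v) 0 := by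
      rw [seg_zero, ← h1]; exact h1 ▸ hw
    exact ht0.ne' (seg_inj hne' this)
  by_cases h2 : w = v
  · have : seg (pz i u) (pz i v) t = seg (pz i u) (pz i v) 1 := by
      rw [seg_one, ← h2]; exact h2 ▸ hw
    exact ht1.ne (seg_inj hne' this)
  have h3 : seg (pz i u) (pz i v) t = seg (pz i w) (pz i w) 0 := by rw [seg_zero]; exact hw
  have h4 := ori_seg h3
  rw [ori_pz] at h4
  have h5 : (oz i u v w : ℝ) = 0 := by linarith
  exact oz_ne i u v w hne h1 h2 (by exact_mod_cast h5)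

lemma opp_of {a b : ℤ} {t : ℝ} (h0 : 0 < t) (h1 : t < 1) (h : (1 - t) * (a : ℝ) + t * (b : ℝ) = 0) :
    opp a b = true := by
  have h1' : 0 < 1 - t := by linarith
  rcases lt_trichotomy a 0 with ha | ha | ha
  · have ha' : (a : ℝ) < 0 := by exact_mod_cast ha
    have hb : (0 : ℝ) < (b : ℝ) := by
      by_contra hb
      have h2 : (1 - t) * (a : ℝ) < 0 := mul_neg_of_pos_of_neg h1' ha'
      have h3 : t * (b : ℝ) ≤ 0 := mul_nonpos_of_nonneg_of_nonpos h0.le (not_lt.mp hb)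
      linarith
    have hb' : 0 < b := by exact_mod_cast hb
    simp [opp, ha, hb']
  · subst ha
    have : t * (b : ℝ) = 0 := by simpa using h
    rcases mul_eq_zero.mp this with h2 | h2
    · exact absurd h2 h0.ne'
    · have hb' : b = 0 := by exact_mod_cast h2
      simp [opp, hb']
  · have ha' : (0 : ℝ) < (a : ℝ) := by exact_mod_cast ha
    have hb : (b : ℝ) < 0 := by
      by_contra hb
      have h2 : 0 < (1 - t) * (a : ℝ) := mul_pos h1' ha'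
      have h3 : 0 ≤ t * (b : ℝ) := mul_nonneg h0.le (not_lt.mp hb)
      linarith
    have hb' : b < 0 := by exact_mod_cast hb
    simp [opp, ha, hb']

/-- forget the point of a crossing -/
def fg (x : Fin 2 × Fin 9 × Fin 9 × Fin 9 × Fin 9 × ℂ) : Fin 2 × Fin 9 × Fin 9 × Fin 9 × Fin 9 :=
  (x.1, x.2.1, x.2.2.1, x.2.2.2.1, x.2.2.2.2.1)

lemma fg_mem {x : Fin 2 × Fin 9 × Fin 9 × Fin 9 × Fin 9 × ℂ} (hx : x ∈ XS cz gz) : fg x ∈ LX ∧
    oz x.1 x.2.2.2.1 x.2.2.2.2.1 x.2.1 ≠ oz x.1 x.2.2.2.1 x.2.2.2.2.1 x.2.2.1 := by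
  obtain ⟨h1, h2, h3, h4, h5, h6, ⟨s, hs0, hs1, hs⟩, ⟨t, ht0, ht1, ht⟩⟩ := hx
  have e1 := ori_seg (hs.trans ht.symm)
  have e2 := ori_seg (ht.trans hs.symm)
  rw [ori_pz, ori_pz] at e1 e2
  exact cross_mem _ _ _ _ _ h1 h2 h3 h4 h5 h6 (opp_of ht0 ht1 e1) (opp_of hs0 hs1 e2)

lemma fg_inj : Set.InjOn fg (XS cz gz) := by
  intro x hx y hy hxy
  have hLX := (fg_mem hx).2
  obtain ⟨i, u, v, u', v', z⟩ := x
  obtain ⟨i2, u2, v2, u2', v2', z2⟩ := y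
  simp only [fg, Prod.mk.injEq] at hxy
  obtain ⟨rfl, rfl, rfl, rfl, rfl⟩ := hxy
  obtain ⟨-, -, -, -, -, -, ⟨s, hs0, hs1, hs⟩, ⟨t, ht0, ht1, ht⟩⟩ := hx
  obtain ⟨-, -, -, -, -, -, ⟨s', hs0', hs1', hs'⟩, ⟨t', ht0', ht1', ht'⟩⟩ := hy
  simp only at hs ht hs' ht'
  have e1 := ori_seg (ht.trans hs.symm)
  have e2 := ori_seg (ht'.trans hs'.symm)
  rw [ori_pz, ori_pz] at e1 e2
  simp only at hLX
  have hne : ((oz i u' v' u : ℤ) : ℝ) ≠ ((oz i u' v' v : ℤ) : ℝ) := by exact_mod_cast hLX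
  have hss : s = s' := by
    have : (s - s') * (((oz i u' v' v : ℤ) : ℝ) - ((oz i u' v' u : ℤ) : ℝ)) = 0 := by linarith
    rcases mul_eq_zero.mp this with h | h
    · linarith
    · exact absurd (by linarith) hne
  subst hss
  have : z = z2 := hs.symm.trans hs'
  rw [this]

theorem XS_z : (XS cz gz).Finite ∧ (XS cz gz).ncard ≤ 8 := by
  have hsub : fg '' (XS cz gz) ⊆ (LX : Set (Fin 2 × Fin 9 × Fin 9 × Fin 9 × Fin 9)) := by
    rintro _ ⟨x, hx, rfl⟩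
    exact (fg_mem hx).1
  have hfin : (XS cz gz).Finite :=
    Set.Finite.of_finite_image ((Finset.finite_toSet LX).subset hsub) fg_inj
  refine ⟨hfin, ?_⟩
  rw [← fg_inj.ncard_image]
  have h8 : LX.card = 8 := by decide
  rw [← h8, ← Set.ncard_coe_finset]
  exact Set.ncard_le_ncard hsub (Finset.finite_toSet LX)

end Pool.Agent.Q146.BP
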