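import Mathlib

set_option autoImplicit false

/-! Antimorphisms of colourings of the pairs of `Fin 9`: cycle type `8 + 1` or `4 + 4 + 1`. -/

namespace Pool.Agent.Q146.BP

open Equiv Equiv.Perm

/-- the standard permutation of type `8 + 1` -/
def t8 : Perm (Fin 9) := List.formPerm [0, 1, 2, 3, 4, 5, 6, 7]

/-- the standard permutation of type `4 + 4 + 1` -/
def t44 : Perm (Fin 9) := List.formPerm [0, 1, 2, 3] * List.formPerm [4, 5, 6, 7]

lemma t8_type : t8.cycleType = {8} := by
  have hc : IsCycle t8 := List.isCycle_formPerm (by decide) (by decide)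
  rw [hc.cycleType]
  congr 1

lemma t44_type : t44.cycleType = {4, 4} := by
  have h1 : IsCycle (List.formPerm ([0, 1, 2, 3] : List (Fin 9))) :=
    List.isCycle_formPerm (by decide) (by decide)
  have h2 : IsCycle (List.formPerm ([4, 5, 6, 7] : List (Fin 9))) :=
    List.isCycle_formPerm (by decide) (by decide)
  have hd : Perm.Disjoint (List.formPerm ([0, 1, 2, 3] : List (Fin 9)))
      (List.formPerm ([4, 5, 6, 7] : List (Fin 9))) := by
    intro x
    revert x
    decide
  rw [t44, hd.cycleType_mul, h1.cycleType, h2.cycleType]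
  rfl

section

variable {σ : Perm (Fin 9)} {c : Fin 9 → Fin 9 → Fin 2}

lemma iter (h : ∀ u v, u ≠ v → c (σ u) (σ v) = c u v + 1) (k : ℕ) :
    ∀ u v, u ≠ v → (k % 2 = 0 → c ((σ ^ k) u) ((σ ^ k) v) = c u v) ∧
      (k % 2 = 1 → c ((σ ^ k) u) ((σ ^ k) v) = c u v + 1) := by
  have two : ∀ x : Fin 2, x + 1 + 1 = x := by decide
  induction k with
  | zero => intro u v _; simp
  | succ k ih =>
    intro u v huv
    rw [pow_succ', Perm.mul_apply, Perm.mul_apply, h _ _ (by
      intro he; exact huv ((σ ^ k).injective he))]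
    obtain ⟨i0, i1⟩ := ih u v huv
    constructor
    · intro hk
      rw [i1 (by omega), two]
    · intro hk
      rw [i0 (by omega)]

lemma cyc_dvd (hs : ∀ u v, u ≠ v → c u v = c v u)
    (h : ∀ u v, u ≠ v → c (σ u) (σ v) = c u v + 1) :
    ∀ n ∈ σ.cycleType, 4 ∣ n := by
  intro n hn
  obtain ⟨a, τ, hστ, hd, hc, hcard⟩ := mem_cycleType_iff.mp hn
  obtain ⟨u, hu⟩ := hc.nonempty_support
  have hu' : a u ≠ u := Perm.mem_support.mp hu
  have hτu : τ u = u := by
    rcases hd u with h1 | h1
    · exact absurd h1 hu'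
    · exact h1
  have hpow : ∀ k, (σ ^ k) u = (a ^ k) u := by
    intro k
    rw [hστ, hd.commute.mul_pow, Perm.mul_apply]
    congr 1
    exact Perm.pow_apply_eq_self_of_apply_eq_self hτu k
  have hdvd : ∀ k, (σ ^ k) u = u ↔ n ∣ k := by
    intro k
    rw [hpow, ← hc.pow_eq_one_iff' hu', ← orderOf_dvd_iff_pow_eq_one, hc.orderOf, hcard]
  have h2 : 2 ≤ n := two_le_of_mem_cycleType hn
  have one : (1 : Fin 2) ≠ 0 := by decide
  rcases Nat.even_or_odd n with he | ho
  · obtain ⟨m, hm⟩ := he
    rcases Nat.even_or_odd m with hme | hmo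
    · obtain ⟨l, hl⟩ := hme
      exact ⟨l, by omega⟩
    · exfalso
      set v := (σ ^ m) u with hv
      have hvu : u ≠ v := by
        intro hh
        have := (hdvd m).mp hh.symm
        have := Nat.le_of_dvd hmo.pos this
        omega
      have h3 : (σ ^ m) v = u := by
        rw [hv, ← Perm.mul_apply, ← pow_add, ← hm]
        exact (hdvd n).mpr dvd_rfl
      have h4 := (iter h m u v hvu).2 (Nat.odd_iff.mp hmo)
      rw [h3, ← hv, hs v u hvu.symm] at h4
      exact one (by simpa using h4)
  · exfalso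
    set v := σ u with hv
    have hvu : u ≠ v := by
      intro hh
      have h1 : (σ ^ 1) u = u := by rw [pow_one]; exact hh.symm
      have := Nat.le_of_dvd one_pos ((hdvd 1).mp h1)
      omega
    have hu0 : (σ ^ n) u = u := (hdvd n).mpr dvd_rfl
    have hv0 : (σ ^ n) v = v := by
      rw [hv, ← Perm.mul_apply, ← pow_succ, pow_succ', Perm.mul_apply, hu0]
    have h4 := (iter h n u v hvu).2 (Nat.odd_iff.mp ho)
    rw [hu0, hv0] at h4
    exact one (by simpa using h4)

theorem perm_type (hs : ∀ u v, u ≠ v → c u v = c v u)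
    (h : ∀ u v, u ≠ v → c (σ u) (σ v) = c u v + 1) :
    ∃ g : Perm (Fin 9), (∀ v, σ (g v) = g (t8 v)) ∨ (∀ v, σ (g v) = g (t44 v)) := by
  have h4 := cyc_dvd hs h
  have one : (1 : Fin 2) ≠ 0 := by decide
  have hfix : (σ.support)ᶜ.card ≤ 1 := by
    rw [Finset.card_le_one]
    intro u hu v hv
    by_contra huv
    rw [Finset.mem_compl, Perm.notMem_support] at hu hv
    have := h u v huv
    rw [hu, hv] at this
    exact one (by simpa using this)
  have hsupp : 8 ≤ σ.support.card ∧ σ.support.card ≤ 9 := by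
    have h9 := Finset.card_add_card_compl σ.support
    rw [Fintype.card_fin] at h9
    omega
  have hsum : σ.cycleType.sum = 8 := by
    have h1 : 4 ∣ σ.cycleType.sum := Multiset.dvd_sum h4
    have h2 := σ.sum_cycleType
    omega
  have key : σ.cycleType = {8} ∨ σ.cycleType = {4, 4} := by
    by_cases h8 : 8 ∈ σ.cycleType
    · left
      obtain ⟨m, hm⟩ := Multiset.exists_cons_of_mem h8
      rw [hm, Multiset.sum_cons] at hsum
      have hm0 : m = 0 := by
        rw [Multiset.eq_zero_iff_forall_notMem]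
        intro a ha
        have h1 : a ≤ m.sum := Multiset.single_le_sum (fun _ _ => Nat.zero_le _) a ha
        have h2 : 2 ≤ a := two_le_of_mem_cycleType (by rw [hm]; exact Multiset.mem_cons_of_mem ha)
        omega
      rw [hm, hm0]; rfl
    · right
      have hall : ∀ a ∈ σ.cycleType, a = 4 := by
        intro a ha
        have h1 : a ≤ σ.cycleType.sum := Multiset.single_le_sum (fun _ _ => Nat.zero_le _) a ha
        have h2 : 2 ≤ a := two_le_of_mem_cycleType ha
        have h3 := h4 a ha
        have h5 : a ≠ 8 := fun hh => h8 (hh ▸ ha)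
        omega
      have hrep := Multiset.eq_replicate_of_mem hall
      have hs2 : σ.cycleType.sum = σ.cycleType.card * 4 := by
        conv_lhs => rw [hrep]
        rw [Multiset.sum_replicate, smul_eq_mul]
      have hc2 : σ.cycleType.card = 2 := by omega
      rw [hrep, hc2]; rfl
  have conj : ∀ τ : Perm (Fin 9), σ.cycleType = τ.cycleType →
      ∃ g : Perm (Fin 9), ∀ v, σ (g v) = g (τ v) := by
    intro τ hτ
    obtain ⟨g, hg⟩ := isConj_iff.mp (isConj_iff_cycleType_eq.mpr hτ)
    refine ⟨g⁻¹, fun v => ?_⟩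
    rw [← hg]
    simp [Perm.mul_apply]
  rcases key with hk | hk
  · obtain ⟨g, hg⟩ := conj t8 (by rw [hk, t8_type])
    exact ⟨g, Or.inl hg⟩
  · obtain ⟨g, hg⟩ := conj t44 (by rw [hk, t44_type])
    exact ⟨g, Or.inr hg⟩

end

end Pool.Agent.Q146.BP
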