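import Pool.Agent.Q146.BP.Draw
import Pool.Agent.Q146.BP.Perm
import Pool.Agent.Q146.BP.D8
import Pool.Agent.Q146.BP.D44

set_option autoImplicit false

/-! A drawing of `K₉` on two planes with isomorphic halves has a crossing in both planes. -/

namespace Pool.Agent.Q146.BP

section

variable {c : Fin 9 → Fin 9 → Fin 2} {p : Fin 2 → Fin 9 → ℂ} {γ : Fin 2 → Fin 9 → Fin 9 → ℝ → ℂ}

/-- A plane without crossings is a plane drawing. -/
lemma plane_of (hV : Valid c p γ) (i : Fin 2) (hX : ∀ x ∈ XS c γ, x.1 ≠ i) :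
    Plane (fun u v => u ≠ v ∧ c u v = i) (p i) (γ i) where
  inj := hV.inj i
  cont u v h := (hV.arcs i u v h.1 h.2).1
  z0 u v h := (hV.arcs i u v h.1 h.2).2.2.1
  z1 u v h := (hV.arcs i u v h.1 h.2).2.2.2.1
  avoid u v h := (hV.arcs i u v h.1 h.2).2.2.2.2.2
  nocross u v u' v' h h' h1 h2 _ _ s t hs0 hs1 ht0 ht1 he := by
    refine hX (i, u, v, u', v', γ i u v s) ⟨h.1, h'.1, h.2, h'.2, fun hh => h1 hh.1,
      fun hh => h2 hh.1, ⟨s, hs0, hs1, rfl⟩, ⟨t, ht0, ht1, he.symm⟩⟩ rfl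

lemma sd_cases (s : Bool) (i : Fin 2) : i = sd s ∨ i = sd s + 1 := by
  revert s i; decide

/-- Both planes have a crossing. -/
theorem both (hV : Valid c p γ) (σ : Equiv.Perm (Fin 9))
    (hσ : ∀ u v, u ≠ v → c (σ u) (σ v) = c u v + 1) (i : Fin 2) : ∃ x ∈ XS c γ, x.1 = i := by
  by_contra hcon
  push Not at hcon
  have hP := plane_of hV i hcon
  have hs : ∀ u v, u ≠ v → c u v = c v u := fun u v h => hV.sym u v h
  obtain ⟨g, hg⟩ := perm_type hs hσ
  have t8e : ∀ v, t8 v = D8.tau v := by decide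
  have t44e : ∀ v, t44 v = D44.tau v := by decide
  have fin : ∀ (T : Fin 9 → Fin 9 → ℕ × ℕ) (C : Cert), C.ok T = true →
      (∀ u v, edgeOK T C u v = true → u ≠ v ∧ c (g u) (g v) = sd C.side) → False := by
    intro T C hC hE
    rcases sd_cases C.side i with hi | hi
    · refine no_plane hC hP g g.injective (fun u v huv => ?_)
      obtain ⟨h1, h2⟩ := hE u v huv
      exact ⟨fun h => h1 (g.injective h), by rw [h2, hi]⟩
    · refine no_plane hC hP (fun v => σ (g v)) (fun a b hab => g.injective (σ.injective hab))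
        (fun u v huv => ?_)
      obtain ⟨h1, h2⟩ := hE u v huv
      have h3 : g u ≠ g v := fun h => h1 (g.injective h)
      exact ⟨fun h => h3 (σ.injective h), by rw [hσ _ _ h3, h2, hi]⟩
  have hs' : ∀ u v, u ≠ v → c (g u) (g v) = c (g v) (g u) :=
    fun u v h => hs _ _ (fun hh => h (g.injective hh))
  rcases hg with hg | hg
  · have h8 : ∀ u v, u ≠ v → c (g (D8.tau u)) (g (D8.tau v)) = c (g u) (g v) + 1 := by
      intro u v huv
      rw [← t8e, ← t8e, ← hg, ← hg]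
      exact hσ _ _ (fun hh => huv (g.injective hh))
    obtain ⟨C, hC, hE⟩ := cover D8.tau_inj _ D8.T D8.r D8.T_spec D8.certs D8.certs_cover
      (fun u v => c (g u) (g v)) hs' h8
    exact fin D8.T C (D8.certs_ok C hC) hE
  · have h44 : ∀ u v, u ≠ v → c (g (D44.tau u)) (g (D44.tau v)) = c (g u) (g v) + 1 := by
      intro u v huv
      rw [← t44e, ← t44e, ← hg, ← hg]
      exact hσ _ _ (fun hh => huv (g.injective hh))
    obtain ⟨C, hC, hE⟩ := cover D44.tau_inj _ D44.T D44.r D44.T_spec D44.certs D44.certs_cover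
      (fun u v => c (g u) (g v)) hs' h44
    exact fin D44.T C (D44.certs_ok C hC) hE

lemma XS_swap1 (hV : Valid c p γ) {i : Fin 2} {u v u' v' : Fin 9} {z : ℂ}
    (h : (i, u, v, u', v', z) ∈ XS c γ) : (i, v, u, u', v', z) ∈ XS c γ := by
  obtain ⟨h1, h2, h3, h4, h5, h6, ⟨s, hs0, hs1, hs⟩, ht⟩ := h
  simp only at h1 h2 h3 h4 h5 h6 hs ht
  refine ⟨h1.symm, h2, (hV.sym u v h1).symm.trans h3, h4, fun h => h6 ⟨h.2, h.1⟩,
    fun h => h5 ⟨h.2, h.1⟩, ⟨1 - s, by linarith, by linarith, ?_⟩, ht⟩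
  have := (hV.arcs i u v h1 h3).2.2.2.2.1 (1 - s) (by linarith) (by linarith)
  simp only
  rw [this, ← hs]
  congr 1
  ring

lemma XS_flip {i : Fin 2} {u v u' v' : Fin 9} {z : ℂ}
    (h : (i, u, v, u', v', z) ∈ XS c γ) : (i, u', v', u, v, z) ∈ XS c γ := by
  obtain ⟨h1, h2, h3, h4, h5, h6, hs, ht⟩ := h
  exact ⟨h2, h1, h4, h3, fun h => h5 ⟨h.1.symm, h.2.symm⟩, fun h => h6 ⟨h.2.symm, h.1.symm⟩, ht, hs⟩

theorem nine_le (hV : Valid c p γ) (hf : (XS c γ).Finite) (h0 : ∃ x ∈ XS c γ, x.1 = 0)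
    (h1 : ∃ x ∈ XS c γ, x.1 = 1) : 9 ≤ (XS c γ).ncard := by
  obtain ⟨⟨i, u, v, u', v', z⟩, hx, hi⟩ := h0
  obtain ⟨y, hy, hyi⟩ := h1
  simp only at hi
  subst hi
  have a1 := XS_swap1 hV hx
  have a2 := XS_flip hx
  have a3 := XS_flip a1
  have a4 := XS_swap1 hV a2
  have a5 := XS_swap1 hV a3
  have a6 := XS_flip a4
  have a7 := XS_flip a5
  obtain ⟨g1, g2, -, -, g5, g6, -, -⟩ := id hx
  have g1' : u ≠ v := g1
  have g2' : u' ≠ v' := g2
  simp only at g5 g6
  let q : Fin 9 → Fin 2 × Fin 9 × Fin 9 × Fin 9 × Fin 9 × ℂ :=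
    ![(0, u, v, u', v', z), (0, v, u, u', v', z), (0, u', v', u, v, z), (0, u', v', v, u, z),
      (0, v', u', u, v, z), (0, v', u', v, u, z), (0, u, v, v', u', z), (0, v, u, v', u', z), y]
  have hq : Function.Injective q := by
    intro a b hab
    have hy0 : ∀ w, ((0 : Fin 2), w) ≠ y := by
      intro w hw
      rw [← hw] at hyi
      exact absurd hyi (by simp)
    fin_cases a <;> fin_cases b <;> simp [q] at hab ⊢ <;> grind
  have hsub : Set.range q ⊆ XS c γ := by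
    rintro _ ⟨a, rfl⟩
    fin_cases a
    all_goals simp only [q]
    all_goals first | exact hx | exact a1 | exact a2 | exact a3 | exact a4 | exact a5 | exact a6 | exact a7 | exact hy
  have hc : (Set.range q).ncard = 9 := by
    rw [← Set.image_univ, Set.ncard_image_of_injective _ hq, Set.ncard_univ]
    simp
  exact hc.symm.le.trans (Set.ncard_le_ncard hsub hf)

end

end Pool.Agent.Q146.BP
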