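import Pool.Agent.H650R3.Task571D

set_option autoImplicit false

/-! Path systems in a drawing without crossings. -/

namespace Pool.Agent.Q146.BP

open Set Pool.Agent.H650R3.T571D Pool.Agent.Helper770.VanKampen

/-- consecutive members of the list are related -/
def Chn {V : Type} (E : V → V → Prop) : List V → Prop
  | [] => True
  | [_] => True
  | a :: b :: l => E a b ∧ Chn E (b :: l)

/-- the union of the arcs of a walk -/
def pset {V : Type} (p : V → ℂ) (γ : V → V → ℝ → ℂ) : List V → Set ℂ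
  | [] => ∅
  | [a] => {p a}
  | a :: b :: l => (γ a b '' Icc (0 : ℝ) 1) ∪ pset p γ (b :: l)

/-- a plane drawing of the graph `E` in which no two edges cross -/
structure Plane {V : Type} (E : V → V → Prop) (p : V → ℂ) (γ : V → V → ℝ → ℂ) : Prop where
  inj : Function.Injective p
  cont : ∀ u v, E u v → ContinuousOn (γ u v) (Icc (0 : ℝ) 1)
  z0 : ∀ u v, E u v → γ u v 0 = p u
  z1 : ∀ u v, E u v → γ u v 1 = p v
  avoid : ∀ u v, E u v → ∀ t : ℝ, 0 < t → t < 1 → ∀ w, γ u v t ≠ p w
  nocross : ∀ u v u' v', E u v → E u' v' → u ≠ u' → u ≠ v' → v ≠ u' → v ≠ v' →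
    ∀ s t : ℝ, 0 < s → s < 1 → 0 < t → t < 1 → γ u v s ≠ γ u' v' t

section

variable {V : Type} {E : V → V → Prop} {p : V → ℂ} {γ : V → V → ℝ → ℂ}

lemma joined (hP : Plane E p γ) : ∀ (l : List V) (a : V), Chn E (a :: l) →
    JoinedIn (pset p γ (a :: l)) (p a) (p ((a :: l).getLast (List.cons_ne_nil a l))) := by
  intro l
  induction l with
  | nil =>
    intro a _
    simp only [pset, List.getLast_singleton]
    exact JoinedIn.refl (mem_singleton _)
  | cons b l ih =>
    intro a h
    obtain ⟨hab, hch⟩ := h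
    have h1 := ih b hch
    have hpc : IsPathConnected (γ a b '' Icc (0 : ℝ) 1) :=
      ((convex_Icc (0 : ℝ) 1).isPathConnected ⟨0, by simp⟩).image' (hP.cont a b hab)
    have h2 : JoinedIn (γ a b '' Icc (0 : ℝ) 1) (p a) (p b) :=
      hpc.joinedIn _ ⟨0, by simp, hP.z0 a b hab⟩ _ ⟨1, by simp, hP.z1 a b hab⟩
    have h3 : JoinedIn (pset p γ (a :: b :: l)) (p a) (p b) := h2.mono subset_union_left
    have h4 : JoinedIn (pset p γ (a :: b :: l)) (p b)
        (p ((b :: l).getLast (List.cons_ne_nil b l))) := h1.mono subset_union_right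
    rw [List.getLast_cons (List.cons_ne_nil b l)]
    exact h3.trans h4

lemma mem_pset (hP : Plane E p γ) {z : ℂ} : ∀ (l : List V), Chn E l → z ∈ pset p γ l →
    (∃ a ∈ l, z = p a) ∨
      ∃ a ∈ l, ∃ b ∈ l, E a b ∧ ∃ t : ℝ, 0 < t ∧ t < 1 ∧ γ a b t = z := by
  intro l
  induction l with
  | nil => intro _ h; exact absurd h (notMem_empty z)
  | cons a l ih =>
    cases l with
    | nil => intro _ h; exact Or.inl ⟨a, by simp, h⟩
    | cons b l =>
      rintro ⟨hab, hch⟩ h
      rcases h with ⟨t, ⟨h0, h1⟩, rfl⟩ | h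
      · rcases h0.eq_or_lt with h0 | h0
        · left; exact ⟨a, by simp, by rw [← h0]; exact hP.z0 a b hab⟩
        rcases h1.eq_or_lt with h1 | h1
        · left; exact ⟨b, by simp, by rw [h1]; exact hP.z1 a b hab⟩
        · right; exact ⟨a, by simp, b, by simp, hab, t, h0, h1, rfl⟩
      · rcases ih hch h with ⟨x, hx, hz⟩ | ⟨x, hx, y, hy, h3⟩
        · left; exact ⟨x, List.mem_cons_of_mem _ hx, hz⟩
        · right; exact ⟨x, List.mem_cons_of_mem _ hx, y, List.mem_cons_of_mem _ hy, h3⟩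

lemma disj (hP : Plane E p γ) {l l' : List V} (hl : Chn E l) (hl' : Chn E l')
    (hd : ∀ v ∈ l, v ∉ l') : Disjoint (pset p γ l) (pset p γ l') := by
  rw [Set.disjoint_left]
  intro z hz hz'
  rcases mem_pset hP l hl hz with ⟨a, ha, h1⟩ | ⟨a, ha, b, hb, hab, t, ht0, ht1, ht⟩
  · rcases mem_pset hP l' hl' hz' with ⟨a', ha', h1'⟩ | ⟨a', ha', b', hb', hab', t', ht0', ht1', ht'⟩
    · have : a = a' := hP.inj (h1.symm.trans h1')
      exact hd a ha (this ▸ ha')
    · exact hP.avoid a' b' hab' t' ht0' ht1' a (ht'.trans h1)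
  · rcases mem_pset hP l' hl' hz' with ⟨a', ha', h1'⟩ | ⟨a', ha', b', hb', hab', t', ht0', ht1', ht'⟩
    · exact hP.avoid a b hab t ht0 ht1 a' (ht.trans h1')
    · exact hP.nocross a b a' b' hab hab' (fun h => hd a ha (h ▸ ha')) (fun h => hd a ha (h ▸ hb'))
        (fun h => hd b hb (h ▸ ha')) (fun h => hd b hb (h ▸ hb')) t t' ht0 ht1 ht0' ht1'
        (ht.trans ht'.symm)

lemma joined' (hP : Plane E p γ) {l : List V} {a b : V} (hl : Chn E l) (ha : l.head? = some a)
    (hb : l.getLast? = some b) : JoinedIn (pset p γ l) (p a) (p b) := by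
  cases l with
  | nil => simp at ha
  | cons x l =>
    have h1 : x = a := by simpa using ha
    have h2 : (x :: l).getLast (List.cons_ne_nil x l) = b := by
      rw [List.getLast?_eq_some_getLast (List.cons_ne_nil x l)] at hb
      exact Option.some.inj hb
    subst h1
    rw [← h2]
    exact joined hP l x hl

/-- A plane drawing without crossings has no subdivision of `K₃,₃`. -/
theorem no33 (hP : Plane E p γ) (X : Fin 6 → V) (P : Fin 6 → Fin 6 → List V)
    (hc : ∀ a b, E33 a b → Chn E (P a b)) (hh : ∀ a b, E33 a b → (P a b).head? = some (X a))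
    (ht : ∀ a b, E33 a b → (P a b).getLast? = some (X b))
    (hd : ∀ a b c d, E33 a b → E33 c d → a ≠ c → b ≠ d → ∀ v ∈ P a b, v ∉ P c d) : False :=
  k33_joined (fun a => p (X a)) (fun a b => pset p γ (P a b))
    (fun a b hab => joined' hP (hc a b hab) (hh a b hab) (ht a b hab))
    (fun a b c d hab hcd h1 h2 => disj hP (hc a b hab) (hc c d hcd) (hd a b c d hab hcd h1 h2))

/-- A plane drawing without crossings has no subdivision of `K₅`. -/
theorem no5 (hP : Plane E p γ) (X : Fin 5 → V) (P : Fin 5 → Fin 5 → List V)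
    (hc : ∀ a b, a < b → Chn E (P a b)) (hh : ∀ a b, a < b → (P a b).head? = some (X a))
    (ht : ∀ a b, a < b → (P a b).getLast? = some (X b))
    (hd : ∀ a b c d, a < b → c < d → a ≠ c → a ≠ d → b ≠ c → b ≠ d →
      ∀ v ∈ P a b, v ∉ P c d) : False :=
  k5_joined (fun a => p (X a)) (fun a b => pset p γ (P a b))
    (fun a b hab => joined' hP (hc a b hab) (hh a b hab) (ht a b hab))
    (fun a b c d hab hcd h1 h2 h3 h4 =>
      disj hP (hc a b hab) (hc c d hcd) (hd a b c d hab hcd h1 h2 h3 h4))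

end

end Pool.Agent.Q146.BP
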